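import Pool.Agent.Helper3.DL.Defs

/-!
# DL-1: functions with given spectrum
-/

namespace Pool.Agent.DL

open MeasureTheory Finset

variable {n k : ℕ}

theorem norm_ee (t : ℝ) : ‖ee t‖ = 1 := by
  unfold ee
  have : (2 * Real.pi * t * Complex.I : ℂ) = ((2 * Real.pi * t : ℝ) : ℂ) * Complex.I := by
    push_cast; ring
  rw [this, Complex.norm_exp_ofReal_mul_I]

theorem ee_add (s t : ℝ) : ee (s + t) = ee s * ee t := by
  unfold ee
  rw [← Complex.exp_add]
  congr 1
  push_cast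
  ring

theorem ee_zero : ee 0 = 1 := by simp [ee]

theorem continuous_ee : Continuous ee := by
  unfold ee
  fun_prop

theorem measurable_ee : Measurable ee := continuous_ee.measurable

theorem dot_add_left (x y ξ : Fin n → ℝ) : dot (x + y) ξ = dot x ξ + dot y ξ := by
  simp [dot, add_mul, Finset.sum_add_distrib]

theorem dot_add_right (x ξ η : Fin n → ℝ) : dot x (ξ + η) = dot x ξ + dot x η := by
  simp [dot, mul_add, Finset.sum_add_distrib]

theorem dot_neg_left (x ξ : Fin n → ℝ) : dot (-x) ξ = -dot x ξ := by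
  simp [dot]

theorem dot_comm (x ξ : Fin n → ℝ) : dot x ξ = dot ξ x := by
  simp [dot, mul_comm]

theorem continuous_dot : Continuous fun p : (Fin n → ℝ) × (Fin n → ℝ) => dot p.1 p.2 := by
  unfold dot
  fun_prop

theorem continuous_dot_left (ξ : Fin n → ℝ) : Continuous fun x : Fin n → ℝ => dot x ξ := by
  unfold dot
  fun_prop

theorem continuous_dot_right (x : Fin n → ℝ) : Continuous fun ξ : Fin n → ℝ => dot x ξ := by
  unfold dot
  fun_prop

theorem integrable_mul_ee {Ω : Type*} [MeasurableSpace Ω] {μ : Measure Ω} {c : Ω → ℂ}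
    (hc : Integrable c μ) {φ : Ω → ℝ} (hφ : Measurable φ) :
    Integrable (fun ω => c ω * ee (φ ω)) μ := by
  refine hc.mono (hc.1.mul (measurable_ee.comp hφ).aestronglyMeasurable) ?_
  refine Filter.Eventually.of_forall fun ω => ?_
  rw [norm_mul, norm_ee, mul_one]

theorem Spec.mono {U W : Set (Fin n → ℝ)} {f : (Fin n → ℝ) → ℂ} (h : Spec U f) (hU : U ⊆ W) :
    Spec W f := by
  obtain ⟨Ω, m, μ, hf, c, ξ, h1, h2, h3, h4⟩ := h
  exact ⟨Ω, m, μ, hf, c, ξ, h1, h2, fun ω => hU (h3 ω), h4⟩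

theorem Spec.continuous {U : Set (Fin n → ℝ)} {f : (Fin n → ℝ) → ℂ} (h : Spec U f) :
    Continuous f := by
  obtain ⟨Ω, m, μ, hf, c, ξ, h1, h2, h3, h4⟩ := h
  have he : f = fun x => ∫ ω, c ω * ee (dot x (ξ ω)) ∂μ := funext h4
  rw [he]
  refine continuous_of_dominated (bound := fun ω => ‖c ω‖) (fun x => ?_) (fun x => ?_) h1.norm ?_
  · exact (integrable_mul_ee h1 ((continuous_dot_right x).measurable.comp h2)).1
  · refine Filter.Eventually.of_forall fun ω => ?_
    rw [norm_mul, norm_ee, mul_one]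
  · refine Filter.Eventually.of_forall fun ω => ?_
    exact continuous_const.mul (continuous_ee.comp (continuous_dot_left (ξ ω)))

theorem Spec.zero (U : Set (Fin n → ℝ)) : Spec U (fun _ => 0) := by
  refine ⟨Empty, ⊤, 0, inferInstance, fun ω => ω.elim, fun ω => ω.elim, ?_, ?_, fun ω => ω.elim,
    fun x => ?_⟩
  · exact integrable_zero_measure
  · exact measurable_from_top
  · rw [integral_zero_measure]

theorem Spec.add {U : Set (Fin n → ℝ)} {f g : (Fin n → ℝ) → ℂ} (hf : Spec U f)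
    (hg : Spec U g) : Spec U (fun x => f x + g x) := by
  obtain ⟨Ω, m, μ, hμ, c, ξ, h1, h2, h3, h4⟩ := hf
  obtain ⟨Ω', m', μ', hμ', c', ξ', h1', h2', h3', h4'⟩ := hg
  have hl : MeasurableEmbedding (Sum.inl : Ω → Ω ⊕ Ω')  :=
    ⟨Sum.inl_injective, measurable_inl, fun _ hs => hs.inl_image⟩
  have hr : MeasurableEmbedding (Sum.inr : Ω' → Ω ⊕ Ω')  :=
    ⟨Sum.inr_injective, measurable_inr, fun _ hs => hs.inr_image⟩
  have hint : ∀ (F : Ω → ℂ) (F' : Ω' → ℂ), Integrable F μ → Integrable F' μ' →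
      Integrable (Sum.elim F F') (μ.map Sum.inl) ∧ Integrable (Sum.elim F F') (μ'.map Sum.inr) := by
    intro F F' hF hF'
    rw [hl.integrable_map_iff, hr.integrable_map_iff]
    exact ⟨hF, hF'⟩
  refine ⟨Ω ⊕ Ω', inferInstance, μ.map Sum.inl + μ'.map Sum.inr, inferInstance,
    Sum.elim c c', Sum.elim ξ ξ', ?_, h2.sumElim h2', ?_, fun x => ?_⟩
  · exact (hint c c' h1 h1').1.add_measure (hint c c' h1 h1').2
  · rintro (ω | ω)
    · exact h3 ω
    · exact h3' ω
  · have e : (fun ω => Sum.elim c c' ω * ee (dot x (Sum.elim ξ ξ' ω))) =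
        Sum.elim (fun ω => c ω * ee (dot x (ξ ω))) (fun ω => c' ω * ee (dot x (ξ' ω))) := by
      funext ω
      rcases ω with ω | ω <;> rfl
    have hi := hint (fun ω => c ω * ee (dot x (ξ ω))) (fun ω => c' ω * ee (dot x (ξ' ω)))
      (integrable_mul_ee h1 ((continuous_dot_right x).measurable.comp h2))
      (integrable_mul_ee h1' ((continuous_dot_right x).measurable.comp h2'))
    rw [e, integral_add_measure hi.1 hi.2, hl.integral_map, hr.integral_map]
    simp only [Sum.elim_inl, Sum.elim_inr]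
    rw [h4, h4']

theorem Spec.sum {ι : Type} (S : Finset ι) {U : Set (Fin n → ℝ)} {f : ι → (Fin n → ℝ) → ℂ}
    (h : ∀ j ∈ S, Spec U (f j)) : Spec U (fun x => ∑ j ∈ S, f j x) := by
  classical
  induction S using Finset.induction_on with
  | empty => simpa using Spec.zero U
  | insert a S ha ih =>
    simp_rw [Finset.sum_insert ha]
    exact (h a (Finset.mem_insert_self a S)).add
      (ih fun j hj => h j (Finset.mem_insert_of_mem hj))

theorem Spec.single {U : Set (Fin n → ℝ)} (a : ℂ) {ξ : Fin n → ℝ} (hξ : ξ ∈ U) :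
    Spec U (fun x => a * ee (dot x ξ)) := by
  refine ⟨Unit, ⊤, Measure.dirac (), inferInstance, fun _ => a, fun _ => ξ, integrable_const _,
    measurable_const, fun _ => hξ, fun x => ?_⟩
  rw [integral_const]
  simp

/-- exponential sums -/
theorem Spec.exp {ι : Type} (S : Finset ι) (a : ι → ℂ) (ξ : ι → Fin n → ℝ)
    {U : Set (Fin n → ℝ)} (h : ∀ j ∈ S, ξ j ∈ U) :
    Spec U (fun x => ∑ j ∈ S, a j * ee (dot x (ξ j))) :=
  Spec.sum S fun j hj => Spec.single (a j) (h j hj)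

/-- restriction to an affine subspace (`Lt` is the adjoint of `L`) -/
theorem Spec.pull {U : Set (Fin k → ℝ)} {f : (Fin k → ℝ) → ℂ} (h : Spec U f)
    (x₀ : Fin k → ℝ) (L : (Fin n → ℝ) → (Fin k → ℝ)) (Lt : (Fin k → ℝ) → (Fin n → ℝ))
    (hLt : Measurable Lt) (hadj : ∀ y ξ, dot (L y) ξ = dot y (Lt ξ)) :
    Spec (Lt '' U) (fun y => f (x₀ + L y)) := by
  obtain ⟨Ω, m, μ, hμ, c, ξ, h1, h2, h3, h4⟩ := h
  refine ⟨Ω, m, μ, hμ, fun ω => c ω * ee (dot x₀ (ξ ω)), fun ω => Lt (ξ ω),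
    integrable_mul_ee h1 ((continuous_dot_right x₀).measurable.comp h2), hLt.comp h2,
    fun ω => ⟨ξ ω, h3 ω, rfl⟩, fun y => ?_⟩
  show f (x₀ + L y) = _
  rw [h4]
  congr 1
  funext ω
  rw [dot_add_left, ee_add, hadj]
  ring

/-- modulation -/
theorem Spec.mod {U : Set (Fin n → ℝ)} {f : (Fin n → ℝ) → ℂ} (h : Spec U f)
    (ξ₀ : Fin n → ℝ) : Spec ((fun ξ => ξ₀ + ξ) '' U) (fun x => ee (dot x ξ₀) * f x) := by
  obtain ⟨Ω, m, μ, hμ, c, ξ, h1, h2, h3, h4⟩ := h
  refine ⟨Ω, m, μ, hμ, c, fun ω => ξ₀ + ξ ω, h1, h2.const_add ξ₀, fun ω => ⟨ξ ω, h3 ω, rfl⟩,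
    fun x => ?_⟩
  show ee (dot x ξ₀) * f x = _
  rw [h4, ← integral_const_mul]
  congr 1
  funext ω
  rw [dot_add_right, ee_add]
  ring

/-- products -/
theorem Spec.mul {U W : Set (Fin n → ℝ)} {f g : (Fin n → ℝ) → ℂ} (hf : Spec U f)
    (hg : Spec W g) :
    Spec {ζ | ∃ ξ ∈ U, ∃ ξ' ∈ W, ζ = ξ + ξ'} (fun x => f x * g x) := by
  obtain ⟨Ω, m, μ, hμ, c, ξ, h1, h2, h3, h4⟩ := hf
  obtain ⟨Ω', m', μ', hμ', c', ξ', h1', h2', h3', h4'⟩ := hg
  refine ⟨Ω × Ω', inferInstance, μ.prod μ', inferInstance, fun p => c p.1 * c' p.2,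
    fun p => ξ p.1 + ξ' p.2, h1.mul_prod h1', (h2.comp measurable_fst).add (h2'.comp measurable_snd),
    fun p => ⟨ξ p.1, h3 p.1, ξ' p.2, h3' p.2, rfl⟩, fun x => ?_⟩
  show f x * g x = _
  rw [h4, h4', ← integral_prod_mul]
  congr 1
  funext p
  rw [dot_add_right, ee_add]
  ring

/-- reproducing formula -/
theorem Spec.repro {U : Set (Fin k → ℝ)} {f : (Fin k → ℝ) → ℂ} (h : Spec U f)
    (L : (Fin n → ℝ) → (Fin k → ℝ)) (Lt : (Fin k → ℝ) → (Fin n → ℝ))
    (hLt : Measurable Lt) (hadj : ∀ y ξ, dot (L y) ξ = dot y (Lt ξ))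
    (η : (Fin n → ℝ) → ℂ) (hη : Integrable η)
    (h1 : ∀ ξ ∈ U, ∫ y, η y * ee (-dot y (Lt ξ)) = 1) (x : Fin k → ℝ) :
    f x = ∫ y, f (x - L y) * η y := by
  obtain ⟨Ω, m, μ, hμ, c, ξ, hc, hξ, hU, hf⟩ := h
  have e1 : ∀ y ω, c ω * ee (dot (x - L y) (ξ ω)) * η y =
      c ω * ee (dot x (ξ ω)) * (η y * ee (-dot y (Lt (ξ ω)))) := by
    intro y ω
    rw [sub_eq_add_neg, dot_add_left, ee_add, dot_neg_left, hadj]
    ring
  have e2 : (fun y => f (x - L y) * η y) =
      fun y => ∫ ω, c ω * ee (dot x (ξ ω)) * (η y * ee (-dot y (Lt (ξ ω)))) ∂μ := by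
    funext y
    rw [hf, ← integral_mul_const]
    congr 1
    funext ω
    exact e1 y ω
  have hmeas : Measurable fun p : (Fin n → ℝ) × Ω => ee (-dot p.1 (Lt (ξ p.2))) := by
    refine measurable_ee.comp ?_
    refine Measurable.neg ?_
    exact continuous_dot.measurable.comp
      (measurable_fst.prodMk ((hLt.comp hξ).comp measurable_snd))
  have hint : Integrable (Function.uncurry fun (y : Fin n → ℝ) (ω : Ω) =>
      c ω * ee (dot x (ξ ω)) * (η y * ee (-dot y (Lt (ξ ω))))) (volume.prod μ) := by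
    have h0 : Integrable (fun p : (Fin n → ℝ) × Ω => η p.1 * (c p.2 * ee (dot x (ξ p.2))))
        (volume.prod μ) :=
      hη.mul_prod (integrable_mul_ee hc ((continuous_dot_right x).measurable.comp hξ))
    refine h0.mono ?_ ?_
    · have : (Function.uncurry fun (y : Fin n → ℝ) (ω : Ω) =>
          c ω * ee (dot x (ξ ω)) * (η y * ee (-dot y (Lt (ξ ω))))) =
          fun p => (η p.1 * (c p.2 * ee (dot x (ξ p.2)))) * ee (-dot p.1 (Lt (ξ p.2))) := by
        funext p
        simp only [Function.uncurry]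
        ring
      rw [this]
      exact h0.1.mul hmeas.aestronglyMeasurable
    · refine Filter.Eventually.of_forall fun p => ?_
      simp only [Function.uncurry, norm_mul, norm_ee, mul_one]
      rw [mul_comm]
  rw [e2, integral_integral_swap hint, hf]
  congr 1
  funext ω
  rw [integral_const_mul, h1 _ (hU ω), mul_one]

end Pool.Agent.DL
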