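import Pool.Agent.Helper13.DL.DL1
import Pool.Agent.Helper17.DL.Norms
import Pool.Agent.Helper31.DL.Sc
import Pool.Agent.Helper27.DL.Cells

/-!
# DL-18: decoupling for the weighted mean values
-/

namespace Pool.Agent.DL

open MeasureTheory Finset

variable {n k : ℕ}

namespace St

theorem lintegral_scale {m : ℕ} (d : Fin m → ℝ) (hd : ∀ i, d i ≠ 0) :
    ∃ c : ENNReal, c ≠ 0 ∧ c ≠ ⊤ ∧ ∀ G : (Fin m → ℝ) → ENNReal, Measurable G →
      ∫⁻ y : Fin m → ℝ, G (fun i => d i * y i) = c * ∫⁻ x, G x := by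
  have hdet : (Matrix.diagonal d).det ≠ 0 := by
    rw [Matrix.det_diagonal]
    exact Finset.prod_ne_zero_iff.2 fun i _ => hd i
  have h := Real.map_matrix_volume_pi_eq_smul_volume_pi hdet
  refine ⟨ENNReal.ofReal |((Matrix.diagonal d).det)⁻¹|, ?_, ENNReal.ofReal_ne_top, fun G hG => ?_⟩
  · rw [Ne, ENNReal.ofReal_eq_zero, not_le]
    exact abs_pos.2 (inv_ne_zero hdet)
  · have hT : Measurable (Matrix.toLin' (Matrix.diagonal d) : (Fin m → ℝ) → (Fin m → ℝ)) :=
      (LinearMap.continuous_of_finiteDimensional _).measurable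
    have e : (fun y : Fin m → ℝ => G (fun i => d i * y i)) =
        fun y => G (Matrix.toLin' (Matrix.diagonal d) y) := by
      funext y
      congr 1
      funext i
      simp [Matrix.toLin'_apply, Matrix.mulVec_diagonal]
    rw [e, ← lintegral_map hG hT, h, lintegral_smul_measure]
    rfl

theorem sum_cut (S : Finset ℕ) (N : ℕ) (f : ℕ → ℂ) {u v w : ℝ} (h1 : u ≤ v) (h2 : v ≤ w) :
    ∑ n ∈ cut S N u w, f n = (∑ n ∈ cut S N u v, f n) + ∑ n ∈ cut S N v w, f n := by
  have hN : (0 : ℝ) ≤ N := Nat.cast_nonneg N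
  have a1 : u * N ≤ v * N := mul_le_mul_of_nonneg_right h1 hN
  have a2 : v * N ≤ w * N := mul_le_mul_of_nonneg_right h2 hN
  rw [← Finset.sum_filter_add_sum_filter_not (cut S N u w) (fun n => (n : ℝ) ≤ v * N)]
  congr 1
  · refine Finset.sum_congr ?_ fun _ _ => rfl
    ext n
    simp only [cut, mem_filter]
    constructor
    · rintro ⟨⟨h, h3, h4⟩, h5⟩
      exact ⟨h, h3, h5⟩
    · rintro ⟨h, h3, h4⟩
      exact ⟨⟨h, h3, h4.trans a2⟩, h4⟩
  · refine Finset.sum_congr ?_ fun _ _ => rfl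
    ext n
    simp only [cut, mem_filter, not_le]
    constructor
    · rintro ⟨⟨h, h3, h4⟩, h5⟩
      exact ⟨h, h5, h4⟩
    · rintro ⟨h, h3, h4⟩
      exact ⟨⟨h, a1.trans_lt h3, h4⟩, h3⟩

theorem sum_cuts (S : Finset ℕ) (N : ℕ) (f : ℕ → ℂ) (u ρ : ℝ) (hρ : 0 ≤ ρ) (J : ℕ) :
    ∑ j ∈ range J, ∑ n ∈ cut S N (u + j * ρ) (u + (j + 1) * ρ), f n =
      ∑ n ∈ cut S N u (u + J * ρ), f n := by
  induction J with
  | zero =>
    have : cut S N u (u + ((0 : ℕ) : ℝ) * ρ) = ∅ := by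
      rw [Nat.cast_zero, zero_mul, add_zero, cut, Finset.filter_eq_empty_iff]
      rintro n _ ⟨h1, h2⟩
      exact absurd (h1.trans_le h2) (lt_irrefl _)
    rw [this]
    simp
  | succ J ih =>
    rw [sum_range_succ, ih, ← sum_cut S N f (u := u) (v := u + J * ρ)]
    · push_cast
      rfl
    · have : 0 ≤ (J : ℝ) * ρ := by positivity
      linarith
    · nlinarith

theorem continuous_SS {m : ℕ} (e : Fin m → ℕ) (S : Finset ℕ) (a : ℕ → ℂ) :
    Continuous (SS e S a) := by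
  unfold SS
  refine continuous_finsetSum _ fun n _ => continuous_const.mul (continuous_ee.comp ?_)
  fun_prop

theorem continuous_Psi {m : ℕ} (b : Fin m → ℝ) : Continuous (Psi b) := by
  unfold Psi
  refine continuous_finsetProd _ fun i _ => continuous_sc.comp ?_
  fun_prop

theorem ex_inj (m k r : ℕ) : Function.Injective (ex k r m) := by
  intro i j h
  unfold ex at h
  ext
  split_ifs at h <;> omega

theorem ex_pos (m k r : ℕ) (j : Fin m) : 1 ≤ ex k r m j := by
  unfold ex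
  split_ifs <;> omega

theorem one_le_tri {m : ℕ} (hm : 1 ≤ m) : 1 ≤ tri m := by
  unfold tri
  have : 2 ≤ m * (m + 1) := by nlinarith
  omega

end St

open St

theorem stage (m k r : ℕ) (hr : r < m) (hcurve : CurveThm m) (ε : ℝ) (hε : 0 < ε) :
    ∃ K : ℝ, 0 < K ∧ ∀ N : ℕ, 1 ≤ N → ∀ R : ℝ, (N : ℝ) ^ m ≤ R → ∀ (p q : ℕ) (u : ℝ),
      1 / 2 ≤ u → u + (1 / 2) ^ p ≤ 1 → 2 ^ (m * (p + q)) ≤ N ^ (r + 1) →
      ∀ (S : Finset ℕ) (a : ℕ → ℂ),
        QQ (tri m) (ex k r m) (bb ((N : ℝ) ^ k) R r m) (cut S N u (u + (1 / 2) ^ p)) a ≤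
          ENNReal.ofReal (K * 2 ^ (ε * q)) *
            (∑ j ∈ range (2 ^ q), (QQ (tri m) (ex k r m) (bb ((N : ℝ) ^ k) R r m)
              (cut S N (u + j * (1 / 2) ^ (p + q)) (u + (j + 1) * (1 / 2) ^ (p + q))) a) ^
                (1 / (tri m : ℝ))) ^ tri m := by
  have hm : 1 ≤ m := by omega
  have hs : 1 ≤ tri m := one_le_tri hm
  have hs0 : (0 : ℝ) < tri m := by exact_mod_cast hs
  obtain ⟨C', hC', hfat⟩ := cell_fat (ex k r m) (ex_inj m k r) (ex_pos m k r) (C := 1) zero_le_one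
  obtain ⟨K₀, hK₀, hdec⟩ := hcurve (ex k r m) (ex_inj m k r) (ex_pos m k r) C' hC' (ε / tri m)
    (by positivity)
  refine ⟨K₀ ^ tri m, by positivity, fun N hN R hR p q u hu hup hpq S a => ?_⟩
  set e := ex k r m with he
  set b := bb ((N : ℝ) ^ k) R r m with hb
  set s := tri m with hsdef
  set ρ : ℝ := (1 / 2) ^ (p + q) with hρ
  have hρ0 : 0 < ρ := by positivity
  have hρ1 : ρ ≤ 1 := pow_le_one₀ (by norm_num) (by norm_num)
  have hN1 : (1 : ℝ) ≤ N := by exact_mod_cast hN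
  have hN0 : (0 : ℝ) < N := by linarith
  have hR0 : 0 < R := lt_of_lt_of_le (by positivity) hR
  set d : Fin m → ℝ := fun i => ((N : ℝ) ^ e i)⁻¹ with hd
  have hd0 : ∀ i, d i ≠ 0 := fun i => by positivity
  -- the pieces
  set F : ℕ → (Fin m → ℝ) → ℂ := fun j y =>
    SS e (cut S N (u + j * ρ) (u + (j + 1) * ρ)) a (fun i => d i * y i) *
      (Psi b (fun i => d i * y i) : ℂ) with hF
  have hpow : (2 : ℝ) ^ q * ρ = (1 / 2) ^ p := by
    rw [hρ, pow_add, mul_comm, mul_assoc, ← mul_pow]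
    norm_num
  -- smallness of the blur
  have hsmall : ∀ i, |b i * d i| / 2 ≤ 1 * ρ ^ m := by
    intro i
    have hlow : ((N : ℝ) ^ (r + 1))⁻¹ ≤ ρ ^ m := by
      have h1 : (2 : ℝ) ^ (m * (p + q)) ≤ (N : ℝ) ^ (r + 1) := by exact_mod_cast hpq
      have h2 : ρ ^ m = ((2 : ℝ) ^ (m * (p + q)))⁻¹ := by
        rw [hρ, ← pow_mul, one_div, inv_pow, mul_comm]
      rw [h2]
      exact inv_anti₀ (by positivity) h1
    have hbd : |b i * d i| ≤ ((N : ℝ) ^ (r + 1))⁻¹ := by
      simp only [hb, bb, hd, he, ex]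
      by_cases hi : (i : ℕ) < r
      · rw [if_pos hi, if_pos hi, abs_of_pos (by positivity)]
        have h3 : 1 / R ≤ ((N : ℝ) ^ m)⁻¹ := by
          rw [one_div]
          exact inv_anti₀ (by positivity) hR
        have h4 : ((N : ℝ) ^ ((i : ℕ) + 1))⁻¹ ≤ 1 := inv_le_one_of_one_le₀ (one_le_pow₀ hN1)
        have h5 : ((N : ℝ) ^ m)⁻¹ ≤ ((N : ℝ) ^ (r + 1))⁻¹ :=
          inv_anti₀ (by positivity) (pow_le_pow_right₀ hN1 (by omega))
        calc 1 / R * ((N : ℝ) ^ ((i : ℕ) + 1))⁻¹ ≤ ((N : ℝ) ^ m)⁻¹ * 1 := by gcongr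
          _ ≤ _ := by rw [mul_one]; exact h5
      · rw [if_neg hi, if_neg hi, abs_of_pos (by positivity)]
        have h3 : (N : ℝ) ^ k * ((N : ℝ) ^ (k + (i : ℕ) + 1))⁻¹ = ((N : ℝ) ^ ((i : ℕ) + 1))⁻¹ := by
          rw [add_assoc, pow_add]
          field_simp
        rw [h3]
        exact inv_anti₀ (by positivity) (pow_le_pow_right₀ hN1 (by omega))
    have h0 := abs_nonneg (b i * d i)
    linarith
  -- the spectra
  have hspec : ∀ j : ℕ, j < 2 ^ q → Spec (cell e (u + j * ((1 / 2) ^ p / 2 ^ q))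
      ((1 / 2) ^ p / 2 ^ q) C') (F j) := by
    intro j hj
    have hrho : (1 / 2 : ℝ) ^ p / 2 ^ q = ρ := by
      rw [← hpow]; field_simp
    rw [hrho]
    have h1 : Spec {ζ : Fin m → ℝ | ∃ n ∈ cut S N (u + j * ρ) (u + (j + 1) * ρ),
        ζ = fun i => ((n : ℝ) / N) ^ e i}
        (fun y => SS e (cut S N (u + j * ρ) (u + (j + 1) * ρ)) a (fun i => d i * y i)) := by
      have h := Spec.exp (cut S N (u + j * ρ) (u + (j + 1) * ρ)) a
        (fun n i => ((n : ℝ) / N) ^ e i)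
        (U := {ζ : Fin m → ℝ | ∃ n ∈ cut S N (u + j * ρ) (u + (j + 1) * ρ),
        ζ = fun i => ((n : ℝ) / N) ^ e i}) (fun n hn => ⟨n, hn, rfl⟩)
      convert h using 2 with y
      unfold SS
      refine Finset.sum_congr rfl fun n _ => ?_
      congr 2
      unfold dot
      refine Finset.sum_congr rfl fun i _ => ?_
      simp only [hd]
      rw [div_pow]
      field_simp
    have h2 : Spec {ξ : Fin m → ℝ | ∀ i, |ξ i| ≤ |b i * d i| / 2}
        (fun y => (Psi b (fun i => d i * y i) : ℂ)) := by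
      have h := sc_spec (fun i => b i * d i)
      convert h using 2 with y
      unfold Psi
      simp only [mul_assoc]
    refine (h1.mul h2).mono ?_
    rintro ζ ⟨ξ, ⟨n, hn, rfl⟩, ξ', hξ', rfl⟩
    simp only [cut, mem_filter] at hn
    set v : ℝ := ((n : ℝ) / N - (u + j * ρ)) / ρ with hv
    have hj1 : (j : ℝ) + 1 ≤ 2 ^ q := by exact_mod_cast hj
    have hju : (j : ℝ) * ρ + ρ ≤ (1 / 2) ^ p := by
      rw [← hpow]; nlinarith
    have hj0 : 0 ≤ (j : ℝ) * ρ := by positivity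
    have hv0 : 0 ≤ v := by
      have : u + j * ρ ≤ (n : ℝ) / N := by
        rw [le_div_iff₀ hN0]; exact hn.2.1.le
      exact div_nonneg (by linarith) hρ0.le
    have hv1 : v ≤ 1 := by
      have : (n : ℝ) / N ≤ u + (j + 1) * ρ := by
        rw [div_le_iff₀ hN0]; exact hn.2.2
      rw [hv, div_le_one hρ0]
      linarith
    have hnv : (n : ℝ) / N = ρ * v + (u + j * ρ) := by
      rw [hv]; field_simp; ring
    have hmem := hfat (u + j * ρ) ρ
      (by rw [abs_of_nonneg (by linarith)]; linarith)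
      (by rw [abs_of_nonneg (by linarith)]; linarith) hρ0 hρ1 (fun i => v ^ (i + 1))
      (fun i => by rw [abs_of_nonneg (by positivity)]; exact pow_le_one₀ hv0 hv1) ξ'
      (fun i => (hξ' i).trans (hsmall i))
    convert hmem using 1
    funext i
    simp only [Pi.add_apply]
    congr 1
    rw [hnv, add_pow, Finset.sum_range_succ']
    simp only [pow_zero, one_mul, Nat.sub_zero, Nat.choose_zero_right, Nat.cast_one, mul_one]
    rw [add_comm]
    congr 1
    refine Finset.sum_congr rfl fun l _ => ?_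
    rw [mul_pow]
    ring
  have hD := hdec u ((1 / 2) ^ p) (by positivity) (pow_le_one₀ (by norm_num) (by norm_num))
    (fun v hv1 hv2 => by
      rw [abs_of_nonneg (by linarith)]
      constructor <;> linarith) q
  have hineq := hD F hspec
  -- scaling
  obtain ⟨c, hc0, hct, hc⟩ := lintegral_scale d hd0
  have hscale : ∀ T : Finset ℕ, ∫⁻ y : Fin m → ℝ, ‖SS e T a (fun i => d i * y i) *
      (Psi b (fun i => d i * y i) : ℂ)‖ₑ ^ (2 * s) = c * QQ s e b T a := by
    intro T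
    have hm : Measurable fun x => ‖SS e T a x * (Psi b x : ℂ)‖ₑ ^ (2 * s) := by
      refine Measurable.pow_const ?_ _
      exact (((continuous_SS e T a).mul
        (Complex.continuous_ofReal.comp (continuous_Psi b))).measurable).enorm
    exact hc _ hm
  have hsumF : (fun y => ∑ j ∈ range (2 ^ q), F j y) = fun y =>
      SS e (cut S N u (u + (1 / 2) ^ p)) a (fun i => d i * y i) *
        (Psi b (fun i => d i * y i) : ℂ) := by
    funext y
    simp only [hF]
    rw [← Finset.sum_mul]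
    congr 1
    have h := sum_cuts S N (fun n => a n * ee (∑ i, (d i * y i) * (n : ℝ) ^ e i)) u ρ hρ0.le (2 ^ q)
    have h2 : u + ((2 ^ q : ℕ) : ℝ) * ρ = u + (1 / 2) ^ p := by
      push_cast; rw [hpow]
    rw [h2] at h
    exact h
  have hNNF : ∀ j, NN s (F j) = c ^ (1 / (s : ℝ)) *
      QQ s e b (cut S N (u + j * ρ) (u + (j + 1) * ρ)) a ^ (1 / (s : ℝ)) := by
    intro j
    unfold NN
    rw [← ENNReal.mul_rpow_of_nonneg _ _ (by positivity), ← hscale]
  have hmain : NN s (fun y : Fin m → ℝ =>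
      SS e (cut S N u (u + (1 / 2) ^ p)) a (fun i => d i * y i) *
        (Psi b (fun i => d i * y i) : ℂ)) ^ s = c * QQ s e b (cut S N u (u + (1 / 2) ^ p)) a := by
    rw [NN_pow hs]
    exact hscale _
  rw [hsumF] at hineq
  have h6 : c * QQ s e b (cut S N u (u + (1 / 2) ^ p)) a ≤
      c * (ENNReal.ofReal (K₀ ^ s * 2 ^ (ε * q)) *
        (∑ j ∈ range (2 ^ q), (QQ s e b (cut S N (u + j * ρ) (u + (j + 1) * ρ)) a) ^
          (1 / (s : ℝ))) ^ s) := by
    rw [← hmain]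
    refine (pow_le_pow_left' hineq s).trans (le_of_eq ?_)
    simp_rw [hNNF]
    rw [← Finset.mul_sum, mul_pow, mul_pow, ← ENNReal.ofReal_pow (by positivity)]
    have h7 : (c ^ (1 / (s : ℝ))) ^ s = c := by
      rw [← ENNReal.rpow_natCast, ← ENNReal.rpow_mul, one_div, inv_mul_cancel₀ hs0.ne',
        ENNReal.rpow_one]
    have h8 : (K₀ * 2 ^ (ε / s * q)) ^ s = K₀ ^ s * 2 ^ (ε * q) := by
      rw [mul_pow, ← Real.rpow_natCast ((2 : ℝ) ^ (ε / s * q)), ← Real.rpow_mul (by norm_num)]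
      congr 2
      field_simp
    rw [h7, h8]
    ring
  exact (ENNReal.mul_le_mul_iff_right hc0 hct).1 h6

end Pool.Agent.DL
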