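import Pool.Agent.Helper13.DL.DL1
import Pool.Agent.Helper17.DL.Norms

namespace Pool.Agent.DL

open MeasureTheory Finset

variable {n k : ℕ}

theorem dec_trivial {s : ℕ} (hs : 1 ≤ s) (W : ℕ → Set (Fin n → ℝ)) (m : ℕ) :
    DecIneq s W m m := by
  intro f hf
  have h := NN_sum_le hs (range m) f fun j hj => (hf j (mem_range.1 hj)).continuous
  rw [card_range] at h
  rw [ENNReal.ofReal_natCast]
  exact h

theorem sum_range_mul' {M : Type*} [AddCommMonoid M] (f : ℕ → M) (m q : ℕ) :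
    ∑ j ∈ range (m * q), f j = ∑ i ∈ range m, ∑ j ∈ range q, f (i * q + j) := by
  induction m with
  | zero => simp
  | succ m ih => rw [Nat.succ_mul, sum_range_add, ih, sum_range_succ]

theorem dec_group {s : ℕ} (W W₁ : ℕ → Set (Fin n → ℝ)) (m q : ℕ) (D₁ D₂ : ℝ)
    (hD₁ : 0 ≤ D₁) (hD₂ : 0 ≤ D₂) (hc : DecIneq s W₁ m D₁)
    (hf : ∀ i : ℕ, i < m → DecIneq s (fun j => W (i * q + j)) q D₂)
    (hsub : ∀ i : ℕ, i < m → ∀ j : ℕ, j < q → W (i * q + j) ⊆ W₁ i) :
    DecIneq s W (m * q) (D₁ * D₂) := by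
  intro f hfs
  have hlt : ∀ i : ℕ, i < m → ∀ j : ℕ, j < q → i * q + j < m * q := by
    intro i hi j hj
    have h1 : (i + 1) * q ≤ m * q := Nat.mul_le_mul_right q hi
    have h2 : (i + 1) * q = i * q + q := by ring
    omega
  have h1 : ∀ i : ℕ, i < m → Spec (W₁ i) (fun x => ∑ j ∈ range q, f (i * q + j) x) := by
    intro i hi
    refine Spec.sum (range q) fun j hj => ?_
    exact (hfs _ (hlt i hi j (mem_range.1 hj))).mono (hsub i hi j (mem_range.1 hj))
  have h2 := hc (fun i x => ∑ j ∈ range q, f (i * q + j) x) h1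
  have e : (fun x => ∑ j ∈ range (m * q), f j x) =
      fun x => ∑ i ∈ range m, ∑ j ∈ range q, f (i * q + j) x := by
    funext x
    exact sum_range_mul' (fun j => f j x) m q
  rw [e]
  refine h2.trans ?_
  rw [ENNReal.ofReal_mul hD₁, mul_assoc]
  gcongr
  rw [sum_range_mul' (fun j => NN s (f j)) m q, mul_sum]
  refine sum_le_sum fun i hi => ?_
  exact hf i (mem_range.1 hi) (fun j => f (i * q + j)) fun j hj =>
    hfs _ (hlt i (mem_range.1 hi) j hj)

end Pool.Agent.DL
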